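import Pool.Agent.H583R2.WH.Basic
import Pool.Agent.H628R3.RO.A3

/-! Task IN: inclusions. -/

namespace Pool.Agent.H583R2.WH

open Pool.Agent.NPC Pool.Agent.H628R3.RO

namespace IN

/-- the trivial tails -/
def Ty (b : Bool) : Tail := ([], [], [], if b = true then [[]] else [])

/-- the conversion of the output -/
def Gy (y : List Bool) : List Bool := if y = [true] then bits (Ty true) else bits (Ty false)

theorem Gy_isFP (A : Oracle) : IsFP A Gy := by
  refine IsFP.of_poly ?_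
  exact Poly.ite (p := fun y : List Bool => y = [true])
    (Poly.decide_eq Poly.id (NPC.Poly.const [true])) (NPC.Poly.const _) (NPC.Poly.const _)

theorem test_true (A : Oracle) (z : List ℕ) : Test A (Ty true) z := by
  simp [Test, Ty]

theorem not_test_false (A : Oracle) (z : List ℕ) : ¬ Test A (Ty false) z := by
  simp [Test, Ty]

theorem acc_zero (A : Oracle) (T : Tail) : Acc A T [0] ↔ Test A T T.2.1 := by
  unfold Acc
  show (∃ y : List ℕ, (y.length = 0 ∧ ∀ u ∈ y, u < T.1.length) ∧ Test A T (T.2.1 ++ y)) ↔ _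
  constructor
  · rintro ⟨y, ⟨hy, -⟩, h⟩
    rw [List.length_eq_zero_iff] at hy
    subst hy
    rwa [List.append_nil] at h
  · intro h
    refine ⟨[], ⟨rfl, by simp⟩, ?_⟩
    rwa [List.append_nil]

theorem acc_nil (A : Oracle) (T : Tail) : Acc A T [] ↔ Test A T T.2.1 := Iff.rfl

theorem solve (A : Oracle) (f : ℕ → ℕ) (F : List Bool → List Bool) (hF : IsFP A F) (Q : PP)
    (hQ : ∀ x k, (x, k) ∈ Q ↔ F (inp f x k) = [true]) (bs : List ℕ)
    (hbs : ∀ T : Tail, Acc A T bs ↔ Test A T T.2.1) :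
    Solves A f (fun _ => 0) (fun _ => bs) Q := by
  refine ⟨fun x => Gy (F x), IsFP.comp (Gy_isFP A) hF, fun x k => ?_⟩
  by_cases h : F (inp f x k) = [true]
  · refine ⟨Ty true, ?_, le_refl _, ?_⟩
    · show Gy (F (inp f x k)) = _
      unfold Gy
      rw [if_pos h]
    · rw [hQ, hbs]
      exact ⟨fun _ => test_true A _, fun _ => h⟩
  · refine ⟨Ty false, ?_, le_refl _, ?_⟩
    · show Gy (F (inp f x k)) = _
      unfold Gy
      rw [if_neg h]
    · rw [hQ, hbs]
      exact ⟨fun h' => absurd h' h, fun h' => absurd h' (not_test_false A _)⟩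

theorem alt_snoc (M : ℕ) (P : List ℕ → Prop) : ∀ (bs : List ℕ) (e : Bool) (z : List ℕ),
    Alt M P e (bs ++ [0]) z ↔ Alt M P e bs z
  | [], true, z => by
    show (∃ y : List ℕ, (y.length = 0 ∧ ∀ u ∈ y, u < M) ∧ P (z ++ y)) ↔ P z
    constructor
    · rintro ⟨y, ⟨hy, -⟩, h⟩
      rw [List.length_eq_zero_iff] at hy
      subst hy
      rwa [List.append_nil] at h
    · intro h
      refine ⟨[], ⟨rfl, by simp⟩, ?_⟩
      rwa [List.append_nil]
  | [], false, z => by
    show (∀ y : List ℕ, (y.length = 0 ∧ ∀ u ∈ y, u < M) → P (z ++ y)) ↔ P z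
    constructor
    · intro h
      have := h [] ⟨rfl, by simp⟩
      rwa [List.append_nil] at this
    · rintro h y ⟨hy, -⟩
      rw [List.length_eq_zero_iff] at hy
      subst hy
      rwa [List.append_nil]
  | b :: bs, true, z => exists_congr fun y => and_congr_right fun _ => alt_snoc M P bs false _
  | b :: bs, false, z => forall_congr' fun y => imp_congr_right fun _ => alt_snoc M P bs true _

theorem solves_snoc (A : Oracle) (f h : ℕ → ℕ) (bs : ℕ → List ℕ) (Q : PP)
    (hS : Solves A f h bs Q) : Solves A f h (fun k => bs k ++ [0]) Q := by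
  obtain ⟨F, hF, hT⟩ := hS
  refine ⟨F, hF, fun x k => ?_⟩
  obtain ⟨T, h1, h2, h3⟩ := hT x k
  refine ⟨T, h1, h2, h3.trans ?_⟩
  exact (alt_snoc _ _ _ _ _).symm

theorem comp_snoc {bs : ℕ → List ℕ} (h : Computable bs) : Computable (fun k => bs k ++ [0]) := by
  have h1 : Computable₂ (fun (a b : List ℕ) => a ++ b) := Primrec.list_append.to_comp
  exact h1.comp h (Computable.const [0])

end IN

theorem FPT_sub_WC (A : Oracle) : FPT A ⊆ WC A 1 := by
  rintro Q ⟨f, F, hf, hF, hQ⟩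
  exact ⟨f, fun _ => 0, fun _ => [0], hf, Computable.const 0, Computable.const [0], fun _ => rfl,
    ⟨0, fun k b hb => absurd hb (by simp)⟩, IN.solve A f F hF Q hQ [0] (IN.acc_zero A)⟩

theorem FPT_sub_ACN (A : Oracle) : FPT A ⊆ ACN A 0 := by
  rintro Q ⟨f, F, hf, hF, hQ⟩
  exact ⟨f, fun _ => 0, fun _ => [], fun _ => rfl, IN.solve A f F hF Q hQ [] (IN.acc_nil A)⟩

theorem WC_sub_AC (A : Oracle) (t : ℕ) : WC A t ⊆ AC A t := by
  rintro Q ⟨f, h, bs, hf, hh, hbs, hl, -, hS⟩
  exact ⟨f, h, bs, hf, hh, hbs, hl, hS⟩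

theorem AC_sub_ACN (A : Oracle) (t : ℕ) : AC A t ⊆ ACN A t := by
  rintro Q ⟨f, h, bs, -, -, -, hl, hS⟩
  exact ⟨f, h, bs, hl, hS⟩

theorem WC_mono (A : Oracle) (t : ℕ) : WC A t ⊆ WC A (t + 1) := by
  rintro Q ⟨f, h, bs, hf, hh, hbs, hl, ⟨u, hu⟩, hS⟩
  refine ⟨f, h, fun k => bs k ++ [0], hf, hh, IN.comp_snoc hbs, fun k => by simp [hl k], ⟨u, ?_⟩,
    IN.solves_snoc A f h bs Q hS⟩
  intro k b hb
  have h0 := hu k
  cases hk : bs k with
  | nil =>
    simp only [hk] at hb
    exact absurd hb (by simp)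
  | cons a l =>
    simp only [hk, List.cons_append, List.tail_cons, List.mem_append, List.mem_singleton] at hb
    rw [hk] at h0
    rcases hb with hb | hb
    · exact h0 b hb
    · rw [hb]
      exact Nat.zero_le _

theorem AC_mono (A : Oracle) (t : ℕ) : AC A t ⊆ AC A (t + 1) := by
  rintro Q ⟨f, h, bs, hf, hh, hbs, hl, hS⟩
  exact ⟨f, h, fun k => bs k ++ [0], hf, hh, IN.comp_snoc hbs, fun k => by simp [hl k],
    IN.solves_snoc A f h bs Q hS⟩

end Pool.Agent.H583R2.WH
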