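import Pool.Agent.H583R2.WH.Sep
import Pool.Agent.H583R2.WH.Mem
import Pool.Agent.H583R2.WH.Inc

/-! The hierarchies are strict relative to a random oracle. -/

namespace Pool.Agent.H583R2.WH

open Pool.Agent.NPC Pool.Agent.H628R3.RO

open MeasureTheory

/-- With probability one, the `W`-hierarchy is strict, and `W[t + 1]` is not contained in
`A[t]`. -/
theorem main : ∀ᵐ A ∂randomOracle, FPT A ⊂ WC A 1 ∧ ∀ t, WC A t ⊂ WC A (t + 1) ∧
    ¬ WC A (t + 1) ⊆ ACN A t := by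
  filter_upwards [not_mem_ACN] with A hA
  refine ⟨⟨FPT_sub_WC A, fun h => hA 0 (FPT_sub_ACN A (h (mem_WC A 0)))⟩, fun t => ⟨⟨WC_mono A t,
    fun h => hA t ?_⟩, fun h => hA t (h (mem_WC A t))⟩⟩
  exact AC_sub_ACN A t (WC_sub_AC A t (h (mem_WC A t)))

end Pool.Agent.H583R2.WH
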